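import Mathlib

/-!
Edwards-Sokal representation of a ferromagnetic Ising model on a finite multigraph and the
resulting inequality of Simon type (last exit from a set `B`).
Vertices `V`, bonds `ι` with ends `a i`, `b i`.
-/

set_option linter.unusedSectionVars false

namespace Pool.Agent.H723R2.ES

open Finset

variable {V ι : Type*} [Fintype V] [DecidableEq V] [Fintype ι] [DecidableEq ι]

/-- the sign of a boolean -/
def sg (c : Bool) : ℝ := if c then 1 else -1

lemma sg_mul_self (c : Bool) : sg c * sg c = 1 := by cases c <;> simp [sg]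

lemma sg_not (c : Bool) : sg (!c) = - sg c := by cases c <;> simp [sg]

lemma abs_sg (c : Bool) : |sg c| = 1 := by cases c <;> simp [sg]

/-- one step along an open bond -/
def Adj (a b : ι → V) (ω : Finset ι) (u v : V) : Prop :=
  ∃ i ∈ ω, (a i = u ∧ b i = v) ∨ (a i = v ∧ b i = u)

/-- connected by open bonds -/
def Conn (a b : ι → V) (ω : Finset ι) (u v : V) : Prop :=
  Relation.ReflTransGen (Adj a b ω) u v

lemma Adj.symm {a b : ι → V} {ω : Finset ι} {u v : V} (h : Adj a b ω u v) :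
    Adj a b ω v u := by
  obtain ⟨i, hi, h⟩ := h
  exact ⟨i, hi, h.symm⟩

lemma Conn.symm {a b : ι → V} {ω : Finset ι} {u v : V} (h : Conn a b ω u v) :
    Conn a b ω v u := by
  induction h with
  | refl => exact Relation.ReflTransGen.refl
  | tail _ h ih => exact Relation.ReflTransGen.head h.symm ih

lemma Conn.mono {a b : ι → V} {ω ω' : Finset ι} (h : ω ⊆ ω') {u v : V}
    (hc : Conn a b ω u v) : Conn a b ω' u v := by
  induction hc with
  | refl => exact Relation.ReflTransGen.refl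
  | tail _ hh ih =>
    obtain ⟨i, hi, hh⟩ := hh
    exact ih.tail ⟨i, h hi, hh⟩

lemma conn_ends (a b : ι → V) {ω : Finset ι} {i : ι} (hi : i ∈ ω) (u : V) :
    Conn a b ω u (a i) ↔ Conn a b ω u (b i) := by
  constructor
  · intro h
    exact h.tail ⟨i, hi, Or.inl ⟨rfl, rfl⟩⟩
  · intro h
    exact h.tail ⟨i, hi, Or.inr ⟨rfl, rfl⟩⟩

/-- the weight of an open bond -/
def al (a b : ι → V) (p : ι → ℝ) (σ : V → Bool) (i : ι) : ℝ :=
  if σ (a i) = σ (b i) then p i else 0

lemma al_nonneg {a b : ι → V} {p : ι → ℝ} (hp : ∀ i, 0 ≤ p i) (σ : V → Bool) (i : ι) :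
    0 ≤ al a b p σ i := by
  unfold al
  split_ifs
  · exact hp i
  · exact le_refl _

/-- the weight of all the open bonds -/
def Aw (a b : ι → V) (p : ι → ℝ) (ω : Finset ι) (σ : V → Bool) : ℝ := ∏ i ∈ ω, al a b p σ i

/-- the Boltzmann weight -/
def Ww (a b : ι → V) (p : ι → ℝ) (σ : V → Bool) : ℝ := ∏ i, (al a b p σ i + (1 - p i))

lemma Ww_eq (a b : ι → V) (p : ι → ℝ) (σ : V → Bool) :
    Ww a b p σ = ∑ ω : Finset ι, Aw a b p ω σ * ∏ i ∈ univ \ ω, (1 - p i) := by
  unfold Ww Aw
  rw [Finset.prod_add]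
  simp

lemma conn_eq {a b : ι → V} {p : ι → ℝ} {ω : Finset ι} {σ : V → Bool}
    (h : Aw a b p ω σ ≠ 0) {u v : V} (hc : Conn a b ω u v) : σ u = σ v := by
  have hag : ∀ i ∈ ω, σ (a i) = σ (b i) := by
    intro i hi
    by_contra hne
    apply h
    unfold Aw
    apply Finset.prod_eq_zero hi
    unfold al
    rw [if_neg hne]
  induction hc with
  | refl => rfl
  | tail _ h ih =>
    obtain ⟨i, hi, hh⟩ := h
    rcases hh with ⟨h1, h2⟩ | ⟨h1, h2⟩
    · rw [ih, ← h1, ← h2, hag i hi]
    · rw [ih, ← h1, ← h2, hag i hi]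

open Classical in
/-- flip the cluster of `u` -/
noncomputable def flipC (a b : ι → V) (ω : Finset ι) (u : V) (σ : V → Bool) : V → Bool :=
  fun z => if Conn a b ω u z then !(σ z) else σ z

lemma flipC_flipC (a b : ι → V) (ω : Finset ι) (u : V) (σ : V → Bool) :
    flipC a b ω u (flipC a b ω u σ) = σ := by
  funext z
  unfold flipC
  split_ifs <;> simp

lemma Aw_flip (a b : ι → V) (p : ι → ℝ) (ω : Finset ι) (u : V) (σ : V → Bool) :
    Aw a b p ω (flipC a b ω u σ) = Aw a b p ω σ := by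
  unfold Aw
  apply Finset.prod_congr rfl
  intro i hi
  unfold al flipC
  by_cases hc : Conn a b ω u (a i)
  · have hc' := (conn_ends a b hi u).1 hc
    simp [hc, hc']
  · have hc' : ¬ Conn a b ω u (b i) := fun h => hc ((conn_ends a b hi u).2 h)
    simp [hc, hc']

open Classical in
/-- the correlation of two signs given the open bonds is the indicator of connection -/
lemma key (a b : ι → V) (p : ι → ℝ) (ω : Finset ι) (u v : V) :
    ∑ σ : V → Bool, Aw a b p ω σ * (sg (σ u) * sg (σ v)) =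
      (∑ σ : V → Bool, Aw a b p ω σ) * (if Conn a b ω u v then 1 else 0) := by
  by_cases hc : Conn a b ω u v
  · rw [if_pos hc, mul_one]
    apply Finset.sum_congr rfl
    intro σ _
    by_cases h0 : Aw a b p ω σ = 0
    · rw [h0, zero_mul]
    · rw [conn_eq h0 hc, sg_mul_self, mul_one]
  · rw [if_neg hc, mul_zero]
    let e : Equiv.Perm (V → Bool) :=
      ⟨flipC a b ω u, flipC a b ω u, flipC_flipC a b ω u, flipC_flipC a b ω u⟩
    have h1 : ∑ σ : V → Bool, Aw a b p ω σ * (sg (σ u) * sg (σ v)) =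
        ∑ σ : V → Bool, Aw a b p ω (e σ) * (sg (e σ u) * sg (e σ v)) :=
      (Equiv.sum_comp e (fun σ => Aw a b p ω σ * (sg (σ u) * sg (σ v)))).symm
    have h2 : ∀ σ : V → Bool, Aw a b p ω (e σ) * (sg (e σ u) * sg (e σ v)) =
        - (Aw a b p ω σ * (sg (σ u) * sg (σ v))) := by
      intro σ
      have e1 : e σ = flipC a b ω u σ := rfl
      rw [e1, Aw_flip]
      have e2 : flipC a b ω u σ u = !(σ u) := by
        unfold flipC
        rw [if_pos]
        exact Relation.ReflTransGen.refl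
      have e3 : flipC a b ω u σ v = σ v := by
        unfold flipC
        rw [if_neg hc]
      rw [e2, e3, sg_not]
      ring
    rw [Finset.sum_congr rfl (fun σ _ => h2 σ), Finset.sum_neg_distrib] at h1
    linarith

/-- last exit: a path from `o ∈ B` to `x ∉ B` leaves `B` for the last time through a bond `d` -/
lemma last_exit (a b : ι → V) (B : Finset V) (ω : Finset ι) {o x : V} (ho : o ∈ B)
    (hx : x ∉ B) (hc : Conn a b ω o x) :
    ∃ i ∈ ω, ∃ w w', ((a i = w ∧ b i = w') ∨ (a i = w' ∧ b i = w)) ∧ w ∈ B ∧ w' ∉ B ∧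
      Conn a b ω o w ∧
      Conn a b (ω.filter (fun j => a j ∉ B ∧ b j ∉ B)) w' x := by
  have gen : ∀ y, Conn a b ω o y → y ∉ B →
      ∃ i ∈ ω, ∃ w w', ((a i = w ∧ b i = w') ∨ (a i = w' ∧ b i = w)) ∧ w ∈ B ∧ w' ∉ B ∧
      Conn a b ω o w ∧
      Conn a b (ω.filter (fun j => a j ∉ B ∧ b j ∉ B)) w' y := by
    intro y hy
    induction hy with
    | refl => exact fun h => absurd ho h
    | @tail z y hoz hzy ih =>
      intro hyB
      obtain ⟨i, hi, hh⟩ := hzy
      by_cases hz : z ∈ B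
      · exact ⟨i, hi, z, y, hh, hz, hyB, hoz, Relation.ReflTransGen.refl⟩
      · obtain ⟨j, hj, w, w', h1, h2, h3, h4, h5⟩ := ih hz
        refine ⟨j, hj, w, w', h1, h2, h3, h4, h5.tail ⟨i, ?_, hh⟩⟩
        rw [Finset.mem_filter]
        refine ⟨hi, ?_⟩
        rcases hh with ⟨e1, e2⟩ | ⟨e1, e2⟩
        · rw [e1, e2]; exact ⟨hz, hyB⟩
        · rw [e1, e2]; exact ⟨hyB, hz⟩
  exact gen x hc hx

/-- the bonds outside `B` -/
def Fout (a b : ι → V) (B : Finset V) : Finset ι := univ.filter (fun j => a j ∉ B ∧ b j ∉ B)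

open Classical in
/-- the conditional probability, given the signs, that `y` and `x` are connected outside `B` -/
noncomputable def Qo (a b : ι → V) (p : ι → ℝ) (B : Finset V) (x y : V) (σ : V → Bool) : ℝ :=
  (∑ ω ∈ (Fout a b B).powerset, (∏ i ∈ ω, al a b p σ i) *
    (∏ i ∈ Fout a b B \ ω, (1 - p i)) * (if Conn a b ω y x then 1 else 0)) /
  ∏ i ∈ Fout a b B, (al a b p σ i + (1 - p i))

lemma inter_un (ω F : Finset ι) : (ω ∩ F) ∪ (ω \ F) = ω := by
  ext i
  simp only [Finset.mem_union, Finset.mem_inter, Finset.mem_sdiff]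
  tauto

/-- sum over all sets of bonds, split along `F` -/
lemma sum_split (F : Finset ι) (h : Finset ι → ℝ) :
    ∑ ω : Finset ι, h ω = ∑ ω₁ ∈ F.powerset, ∑ ω₂ ∈ (univ \ F).powerset, h (ω₁ ∪ ω₂) := by
  rw [← Finset.sum_product']
  refine Finset.sum_nbij' (fun ω => (ω ∩ F, ω \ F)) (fun q => q.1 ∪ q.2) ?_ ?_ ?_ ?_ ?_
  · intro ω _
    simp only [Finset.mem_product, Finset.mem_powerset]
    exact ⟨Finset.inter_subset_right, Finset.sdiff_subset_sdiff (Finset.subset_univ _) (le_refl _)⟩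
  · intro q _
    exact Finset.mem_univ _
  · intro ω _
    exact inter_un ω F
  · intro q hq
    simp only [Finset.mem_product, Finset.mem_powerset] at hq
    obtain ⟨h1, h2⟩ := hq
    ext i
    · simp only [Finset.mem_inter, Finset.mem_union]
      constructor
      · rintro ⟨h3 | h3, h4⟩
        · exact h3
        · have := h2 h3
          simp [h4] at this
      · intro h3
        exact ⟨Or.inl h3, h1 h3⟩
    · simp only [Finset.mem_sdiff, Finset.mem_union]
      constructor
      · rintro ⟨h3 | h3, h4⟩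
        · exact absurd (h1 h3) h4
        · exact h3
      · intro h3
        have := h2 h3
        simp only [Finset.mem_sdiff, Finset.mem_univ, true_and] at this
        exact ⟨Or.inr h3, this⟩
  · intro ω _
    exact congrArg h (inter_un ω F).symm

/-- factorisation of a sum over bond configurations -/
lemma fact (α β : ι → ℝ) (F : Finset ι) (g : Finset ι → ℝ) :
    ∑ ω : Finset ι, (∏ i ∈ ω, α i) * (∏ i ∈ univ \ ω, β i) * g (ω ∩ F) =
      (∑ ω ∈ F.powerset, (∏ i ∈ ω, α i) * (∏ i ∈ F \ ω, β i) * g ω) *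
        ∏ i ∈ univ \ F, (α i + β i) := by
  rw [sum_split F, Finset.prod_add, Finset.sum_mul_sum]
  apply Finset.sum_congr rfl
  intro ω₁ h1
  apply Finset.sum_congr rfl
  intro ω₂ h2
  rw [Finset.mem_powerset] at h1 h2
  have hd : Disjoint ω₁ ω₂ := by
    rw [Finset.disjoint_left]
    intro i hi hi2
    have := h2 hi2
    simp only [Finset.mem_sdiff, Finset.mem_univ, true_and] at this
    exact this (h1 hi)
  have e1 : (ω₁ ∪ ω₂) ∩ F = ω₁ := by
    ext i
    simp only [Finset.mem_inter, Finset.mem_union]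
    constructor
    · rintro ⟨h3 | h3, h4⟩
      · exact h3
      · have := h2 h3
        simp [h4] at this
    · intro h3
      exact ⟨Or.inl h3, h1 h3⟩
  have e2 : univ \ (ω₁ ∪ ω₂) = (F \ ω₁) ∪ ((univ \ F) \ ω₂) := by
    ext i
    simp only [Finset.mem_union, Finset.mem_sdiff, Finset.mem_univ, true_and, not_or]
    constructor
    · rintro ⟨h3, h4⟩
      by_cases hF : i ∈ F
      · exact Or.inl ⟨hF, h3⟩
      · exact Or.inr ⟨hF, h4⟩
    · rintro (⟨h3, h4⟩ | ⟨h3, h4⟩)
      · refine ⟨h4, fun h5 => ?_⟩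
        have := h2 h5
        simp [h3] at this
      · exact ⟨fun h5 => h3 (h1 h5), h4⟩
  have hd2 : Disjoint (F \ ω₁) ((univ \ F) \ ω₂) := by
    rw [Finset.disjoint_left]
    intro i hi hi2
    simp only [Finset.mem_sdiff, Finset.mem_univ, true_and] at hi hi2
    exact hi2.1 hi.1
  rw [e1, e2, Finset.prod_union hd, Finset.prod_union hd2]
  ring

lemma al_mul {a b : ι → V} {p : ι → ℝ} (σ : V → Bool) (i : ι) :
    al a b p σ i * (al a b p σ i + (1 - p i)) = al a b p σ i := by
  unfold al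
  split_ifs
  · ring
  · ring

lemma al_add_pos {a b : ι → V} {p : ι → ℝ} (hp : ∀ i, 0 ≤ p i) (hp1 : ∀ i, p i < 1)
    (σ : V → Bool) (i : ι) : 0 < al a b p σ i + (1 - p i) := by
  have := al_nonneg (a := a) (b := b) hp σ i
  have := hp1 i
  linarith

open Classical in
lemma Qo_mul {a b : ι → V} {p : ι → ℝ} (hp : ∀ i, 0 ≤ p i) (hp1 : ∀ i, p i < 1)
    (B : Finset V) (x y : V) (σ : V → Bool) :
    (∑ ω ∈ (Fout a b B).powerset, (∏ i ∈ ω, al a b p σ i) *
      (∏ i ∈ Fout a b B \ ω, (1 - p i)) * (if Conn a b ω y x then 1 else 0)) =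
    Qo a b p B x y σ * ∏ i ∈ Fout a b B, (al a b p σ i + (1 - p i)) := by
  unfold Qo
  rw [div_mul_cancel₀]
  exact (Finset.prod_pos (fun i _ => al_add_pos hp hp1 σ i)).ne'

open Classical in
/-- summing over the bonds, with the bond `i₀` (not outside `B`) open -/
lemma sum_open {a b : ι → V} {p : ι → ℝ} (hp : ∀ i, 0 ≤ p i) (hp1 : ∀ i, p i < 1)
    (B : Finset V) (x y : V) (σ : V → Bool) (i₀ : ι) (hi₀ : i₀ ∉ Fout a b B) :
    ∑ ω : Finset ι, Aw a b p ω σ * (∏ i ∈ univ \ ω, (1 - p i)) *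
      ((if i₀ ∈ ω then 1 else 0) * (if Conn a b (ω ∩ Fout a b B) y x then 1 else 0)) =
    Ww a b p σ * (al a b p σ i₀ * Qo a b p B x y σ) := by
  have h1 : ∀ ω : Finset ι, Aw a b p ω σ * (∏ i ∈ univ \ ω, (1 - p i)) *
      ((if i₀ ∈ ω then 1 else 0) * (if Conn a b (ω ∩ Fout a b B) y x then 1 else 0)) =
      (∏ i ∈ ω, al a b p σ i) *
        (∏ i ∈ univ \ ω, Function.update (fun i => 1 - p i) i₀ 0 i) *
        (fun ω' : Finset ι => if Conn a b ω' y x then (1:ℝ) else 0) (ω ∩ Fout a b B) := by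
    intro ω
    by_cases h0 : i₀ ∈ ω
    · rw [if_pos h0, one_mul]
      have : ∏ i ∈ univ \ ω, (1 - p i) =
          ∏ i ∈ univ \ ω, Function.update (fun i => 1 - p i) i₀ 0 i := by
        apply Finset.prod_congr rfl
        intro i hi
        rw [Function.update_of_ne]
        rintro rfl
        simp [h0] at hi
      rw [this]
      rfl
    · rw [if_neg h0, zero_mul, mul_zero]
      have : ∏ i ∈ univ \ ω, Function.update (fun i => 1 - p i) i₀ 0 i = 0 := by
        apply Finset.prod_eq_zero (i := i₀)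
        · simp [h0]
        · simp
      rw [this]
      simp
  rw [Finset.sum_congr rfl (fun ω _ => h1 ω), fact (fun i => al a b p σ i)
    (Function.update (fun i => 1 - p i) i₀ 0) (Fout a b B)
    (fun ω' : Finset ι => if Conn a b ω' y x then (1:ℝ) else 0)]
  have h2 : ∑ ω ∈ (Fout a b B).powerset, (∏ i ∈ ω, al a b p σ i) *
        (∏ i ∈ Fout a b B \ ω, Function.update (fun i => 1 - p i) i₀ 0 i) *
        (fun ω' : Finset ι => if Conn a b ω' y x then (1:ℝ) else 0) ω =
      Qo a b p B x y σ * ∏ i ∈ Fout a b B, (al a b p σ i + (1 - p i)) := by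
    rw [← Qo_mul hp hp1]
    apply Finset.sum_congr rfl
    intro ω _
    congr 2
    apply Finset.prod_congr rfl
    intro i hi
    rw [Function.update_of_ne]
    rintro rfl
    exact hi₀ (Finset.sdiff_subset hi)
  rw [h2]
  have hmem : i₀ ∈ univ \ Fout a b B := by simp [hi₀]
  have h3 : ∏ i ∈ univ \ Fout a b B,
      (al a b p σ i + Function.update (fun i => 1 - p i) i₀ 0 i) =
      al a b p σ i₀ * ∏ i ∈ univ \ Fout a b B, (al a b p σ i + (1 - p i)) := by
    rw [← Finset.mul_prod_erase _ _ hmem, ← Finset.mul_prod_erase (univ \ Fout a b B)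
      (fun i => al a b p σ i + (1 - p i)) hmem, Function.update_self, add_zero,
      ← mul_assoc, al_mul]
    congr 1
    apply Finset.prod_congr rfl
    intro i hi
    rw [Function.update_of_ne (Finset.ne_of_mem_erase hi)]
  rw [h3]
  have h4 : Ww a b p σ = (∏ i ∈ Fout a b B, (al a b p σ i + (1 - p i))) *
      ∏ i ∈ univ \ Fout a b B, (al a b p σ i + (1 - p i)) := by
    unfold Ww
    rw [mul_comm, Finset.prod_sdiff (Finset.subset_univ _)]
  rw [h4]
  ring

open Classical in
lemma sum_out {a b : ι → V} {p : ι → ℝ} (hp : ∀ i, 0 ≤ p i) (hp1 : ∀ i, p i < 1)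
    (B : Finset V) (x y : V) (σ : V → Bool) :
    ∑ ω : Finset ι, Aw a b p ω σ * (∏ i ∈ univ \ ω, (1 - p i)) *
      (if Conn a b (ω ∩ Fout a b B) y x then 1 else 0) =
    Ww a b p σ * Qo a b p B x y σ := by
  have := fact (fun i => al a b p σ i) (fun i => 1 - p i) (Fout a b B)
    (fun ω' : Finset ι => if Conn a b ω' y x then (1:ℝ) else 0)
  unfold Aw
  rw [this, Qo_mul hp hp1]
  have h4 : Ww a b p σ = (∏ i ∈ Fout a b B, (al a b p σ i + (1 - p i))) *
      ∏ i ∈ univ \ Fout a b B, (al a b p σ i + (1 - p i)) := by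
    unfold Ww
    rw [mul_comm, Finset.prod_sdiff (Finset.subset_univ _)]
  rw [h4]
  ring

lemma Aw_nonneg {a b : ι → V} {p : ι → ℝ} (hp : ∀ i, 0 ≤ p i) (ω : Finset ι) (σ : V → Bool) :
    0 ≤ Aw a b p ω σ := Finset.prod_nonneg (fun i _ => al_nonneg hp σ i)

lemma Bw_nonneg {p : ι → ℝ} (hp1 : ∀ i, p i < 1) (ω : Finset ι) :
    0 ≤ ∏ i ∈ univ \ ω, (1 - p i) := Finset.prod_nonneg (fun i _ => by linarith [hp1 i])

open Classical in
/-- the correlation of two signs in terms of bonds -/
lemma corr_eq (a b : ι → V) (p : ι → ℝ) (u v : V) :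
    ∑ σ : V → Bool, Ww a b p σ * (sg (σ u) * sg (σ v)) =
      ∑ ω : Finset ι, (∏ i ∈ univ \ ω, (1 - p i)) * ((∑ σ : V → Bool, Aw a b p ω σ) *
        (if Conn a b ω u v then 1 else 0)) := by
  simp_rw [← key, Ww_eq, Finset.sum_mul, Finset.mul_sum]
  rw [Finset.sum_comm]
  apply Finset.sum_congr rfl
  intro ω _
  apply Finset.sum_congr rfl
  intro σ _
  ring

/-- the contribution of the bond `i`, used from `w ∈ B` to `w' ∉ B` -/
noncomputable def term (a b : ι → V) (p : ι → ℝ) (B : Finset V) (o x : V) (i : ι) (w w' : V)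
    (σ : V → Bool) : ℝ :=
  if w ∈ B ∧ w' ∉ B then (sg (σ o) * sg (σ w)) * (al a b p σ i * Qo a b p B x w' σ) else 0

/-- inequality of Simon type for the Ising model on a finite multigraph -/
theorem es_one {a b : ι → V} {p : ι → ℝ} (hp : ∀ i, 0 ≤ p i) (hp1 : ∀ i, p i < 1)
    (B : Finset V) {o x : V} (ho : o ∈ B) (hx : x ∉ B) :
    ∑ σ : V → Bool, Ww a b p σ * (sg (σ o) * sg (σ x)) ≤
      ∑ i, ∑ σ : V → Bool, Ww a b p σ *
        (term a b p B o x i (a i) (b i) σ + term a b p B o x i (b i) (a i) σ) := by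
  classical
  rw [corr_eq]
  -- the indicator of a last exit through `i`
  let I : ι → V → V → Finset ι → ℝ := fun i w w' ω =>
    if w ∈ B ∧ w' ∉ B then (if Conn a b ω o w then 1 else 0) * ((if i ∈ ω then 1 else 0) *
      (if Conn a b (ω ∩ Fout a b B) w' x then 1 else 0)) else 0
  have hI0 : ∀ i w w' ω, 0 ≤ I i w w' ω := by
    intro i w w' ω
    simp only [I]
    split_ifs <;> simp
  have h1 : ∀ ω : Finset ι, (if Conn a b ω o x then (1:ℝ) else 0) ≤
      ∑ i, (I i (a i) (b i) ω + I i (b i) (a i) ω) := by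
    intro ω
    have hs : 0 ≤ ∑ i, (I i (a i) (b i) ω + I i (b i) (a i) ω) :=
      Finset.sum_nonneg (fun i _ => add_nonneg (hI0 _ _ _ _) (hI0 _ _ _ _))
    split_ifs with hc
    · obtain ⟨i, hi, w, w', hh, hw, hw', h5, h6⟩ := last_exit a b B ω ho hx hc
      have hF : ω.filter (fun j => a j ∉ B ∧ b j ∉ B) = ω ∩ Fout a b B := by
        ext j
        simp [Fout]
      rw [hF] at h6
      refine le_trans ?_ (Finset.single_le_sum
        (fun i _ => add_nonneg (hI0 i (a i) (b i) ω) (hI0 i (b i) (a i) ω)) (Finset.mem_univ i))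
      rcases hh with ⟨e1, e2⟩ | ⟨e1, e2⟩
      · have : I i (a i) (b i) ω = 1 := by
          simp only [I]
          rw [e1, e2, if_pos ⟨hw, hw'⟩, if_pos h5, if_pos hi, if_pos h6]
          norm_num
        rw [this]
        linarith [hI0 i (b i) (a i) ω]
      · have : I i (b i) (a i) ω = 1 := by
          simp only [I]
          rw [e1, e2, if_pos ⟨hw, hw'⟩, if_pos h5, if_pos hi, if_pos h6]
          norm_num
        rw [this]
        linarith [hI0 i (a i) (b i) ω]
    · exact hs
  -- evaluation of one term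
  have h2 : ∀ i w w', ((a i = w ∧ b i = w') ∨ (a i = w' ∧ b i = w)) →
      ∑ ω : Finset ι, (∏ i ∈ univ \ ω, (1 - p i)) * ((∑ σ : V → Bool, Aw a b p ω σ) *
        I i w w' ω) = ∑ σ : V → Bool, Ww a b p σ * term a b p B o x i w w' σ := by
    intro i w w' hh
    by_cases hB : w ∈ B ∧ w' ∉ B
    · have hi₀ : i ∉ Fout a b B := by
        simp only [Fout, Finset.mem_filter, Finset.mem_univ, true_and, not_and, not_not]
        rcases hh with ⟨e1, e2⟩ | ⟨e1, e2⟩
        · intro h; exact absurd hB.1 (e1 ▸ h)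
        · intro _; rw [e2]; exact hB.1
      have h3 : ∀ σ : V → Bool, Ww a b p σ * term a b p B o x i w w' σ =
          ∑ ω : Finset ι, (sg (σ o) * sg (σ w)) * (Aw a b p ω σ *
            (∏ i ∈ univ \ ω, (1 - p i)) * ((if i ∈ ω then 1 else 0) *
              (if Conn a b (ω ∩ Fout a b B) w' x then 1 else 0))) := by
        intro σ
        rw [← Finset.mul_sum, sum_open hp hp1 B x w' σ i hi₀]
        unfold term
        rw [if_pos hB]
        ring
      rw [Finset.sum_congr rfl (fun σ _ => h3 σ), Finset.sum_comm]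
      apply Finset.sum_congr rfl
      intro ω _
      have h4 : (∑ σ : V → Bool, Aw a b p ω σ) * I i w w' ω =
          (∑ σ : V → Bool, Aw a b p ω σ * (sg (σ o) * sg (σ w))) * ((if i ∈ ω then 1 else 0) *
              (if Conn a b (ω ∩ Fout a b B) w' x then 1 else 0)) := by
        rw [key]
        simp only [I]
        rw [if_pos hB]
        ring
      rw [h4, Finset.sum_mul, Finset.mul_sum]
      apply Finset.sum_congr rfl
      intro σ _
      ring
    · have h3 : ∀ σ : V → Bool, Ww a b p σ * term a b p B o x i w w' σ = 0 := by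
        intro σ
        unfold term
        rw [if_neg hB, mul_zero]
      rw [Finset.sum_congr rfl (fun σ _ => h3 σ)]
      have h4 : ∀ ω : Finset ι, (∏ i ∈ univ \ ω, (1 - p i)) *
          ((∑ σ : V → Bool, Aw a b p ω σ) * I i w w' ω) = 0 := by
        intro ω
        simp only [I]
        rw [if_neg hB, mul_zero, mul_zero]
      rw [Finset.sum_congr rfl (fun ω _ => h4 ω)]
      simp
  calc ∑ ω : Finset ι, (∏ i ∈ univ \ ω, (1 - p i)) * ((∑ σ : V → Bool, Aw a b p ω σ) *
        (if Conn a b ω o x then 1 else 0))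
      ≤ ∑ ω : Finset ι, (∏ i ∈ univ \ ω, (1 - p i)) * ((∑ σ : V → Bool, Aw a b p ω σ) *
        ∑ i, (I i (a i) (b i) ω + I i (b i) (a i) ω)) := by
        apply Finset.sum_le_sum
        intro ω _
        apply mul_le_mul_of_nonneg_left _ (Bw_nonneg hp1 ω)
        apply mul_le_mul_of_nonneg_left (h1 ω)
        exact Finset.sum_nonneg (fun σ _ => Aw_nonneg hp ω σ)
    _ = ∑ i, (∑ ω : Finset ι, (∏ i ∈ univ \ ω, (1 - p i)) * ((∑ σ : V → Bool, Aw a b p ω σ) *
        I i (a i) (b i) ω) + ∑ ω : Finset ι, (∏ i ∈ univ \ ω, (1 - p i)) *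
        ((∑ σ : V → Bool, Aw a b p ω σ) * I i (b i) (a i) ω)) := by
        simp_rw [← Finset.sum_add_distrib, Finset.mul_sum]
        rw [Finset.sum_comm]
        apply Finset.sum_congr rfl
        intro i _
        apply Finset.sum_congr rfl
        intro ω _
        ring
    _ = _ := by
        apply Finset.sum_congr rfl
        intro i _
        rw [h2 i (a i) (b i) (Or.inl ⟨rfl, rfl⟩), h2 i (b i) (a i) (Or.inr ⟨rfl, rfl⟩),
          ← Finset.sum_add_distrib]
        apply Finset.sum_congr rfl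
        intro σ _
        ring

/-- connection outside `B` is less likely than connection -/
theorem es_two {a b : ι → V} {p : ι → ℝ} (hp : ∀ i, 0 ≤ p i) (hp1 : ∀ i, p i < 1)
    (B : Finset V) (x y : V) :
    ∑ σ : V → Bool, Ww a b p σ * Qo a b p B x y σ ≤
      ∑ σ : V → Bool, Ww a b p σ * (sg (σ y) * sg (σ x)) := by
  classical
  rw [corr_eq]
  simp_rw [← sum_out hp hp1]
  rw [Finset.sum_comm]
  apply Finset.sum_le_sum
  intro ω _
  have : ∑ σ : V → Bool, Aw a b p ω σ * (∏ i ∈ univ \ ω, (1 - p i)) *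
      (if Conn a b (ω ∩ Fout a b B) y x then 1 else 0) =
      (∏ i ∈ univ \ ω, (1 - p i)) * ((∑ σ : V → Bool, Aw a b p ω σ) *
        (if Conn a b (ω ∩ Fout a b B) y x then 1 else 0)) := by
    rw [Finset.sum_mul, Finset.mul_sum]
    apply Finset.sum_congr rfl
    intro σ _
    ring
  rw [this]
  apply mul_le_mul_of_nonneg_left _ (Bw_nonneg hp1 ω)
  apply mul_le_mul_of_nonneg_left _ (Finset.sum_nonneg (fun σ _ => Aw_nonneg hp ω σ))
  split_ifs with h1 h2 h2
  · exact le_refl _
  · exact absurd (h1.mono Finset.inter_subset_left) h2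
  · exact zero_le_one
  · exact le_refl _

lemma Qo_nonneg {a b : ι → V} {p : ι → ℝ} (hp : ∀ i, 0 ≤ p i) (hp1 : ∀ i, p i < 1)
    (B : Finset V) (x y : V) (σ : V → Bool) : 0 ≤ Qo a b p B x y σ := by
  classical
  unfold Qo
  apply div_nonneg
  · apply Finset.sum_nonneg
    intro ω _
    apply mul_nonneg (mul_nonneg (Finset.prod_nonneg (fun i _ => al_nonneg hp σ i))
      (Finset.prod_nonneg (fun i _ => by linarith [hp1 i])))
    split_ifs <;> norm_num
  · exact (Finset.prod_pos (fun i _ => al_add_pos hp hp1 σ i)).le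

lemma Qo_le_one {a b : ι → V} {p : ι → ℝ} (hp : ∀ i, 0 ≤ p i) (hp1 : ∀ i, p i < 1)
    (B : Finset V) (x y : V) (σ : V → Bool) : Qo a b p B x y σ ≤ 1 := by
  classical
  unfold Qo
  rw [div_le_one (Finset.prod_pos (fun i _ => al_add_pos hp hp1 σ i)), Finset.prod_add]
  apply Finset.sum_le_sum
  intro ω _
  have h : 0 ≤ (∏ i ∈ ω, al a b p σ i) * ∏ i ∈ Fout a b B \ ω, (1 - p i) :=
    mul_nonneg (Finset.prod_nonneg (fun i _ => al_nonneg hp σ i))
      (Finset.prod_nonneg (fun i _ => by linarith [hp1 i]))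
  split_ifs
  · rw [mul_one]
  · rw [mul_zero]; exact h

/-- `Qo` depends only on the signs and the couplings outside `B` -/
lemma Qo_congr {a b : ι → V} {p p' : ι → ℝ} (B : Finset V) (x y : V) {σ σ' : V → Bool}
    (hσ : ∀ v, v ∉ B → σ v = σ' v) (hpp : ∀ i ∈ Fout a b B, p i = p' i) :
    Qo a b p B x y σ = Qo a b p' B x y σ' := by
  classical
  have h1 : ∀ i ∈ Fout a b B, al a b p σ i = al a b p' σ' i := by
    intro i hi
    have hi' := hi
    simp only [Fout, Finset.mem_filter, Finset.mem_univ, true_and] at hi'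
    unfold al
    rw [hσ _ hi'.1, hσ _ hi'.2, hpp i hi]
  unfold Qo
  congr 1
  · apply Finset.sum_congr rfl
    intro ω hω
    rw [Finset.mem_powerset] at hω
    congr 1
    congr 1
    · exact Finset.prod_congr rfl (fun i hi => h1 i (hω hi))
    · exact Finset.prod_congr rfl (fun i hi => by rw [hpp i (Finset.sdiff_subset hi)])
  · exact Finset.prod_congr rfl (fun i hi => by rw [h1 i hi, hpp i hi])

end Pool.Agent.H723R2.ES
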